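import Mathlib

/-!
# Additive energy of Kloosterman-type phases (elementary fourth moment)
-/

open Finset Complex
open scoped BigOperators ComplexConjugate

namespace Pool.Agent.ZH

noncomputable section

/-! ## The additive energy on a finite abelian group -/

section Group
variable {G : Type*} [AddCommGroup G] [Fintype G]

/-- the autocorrelation of `F` -/
def corr (F : G → ℂ) (h : G) : ℂ := ∑ a, F (a + h) * conj (F a)

/-- the additive energy of `F` -/
def energy (F : G → ℂ) : ℝ := ∑ h, ‖corr F h‖ ^ 2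

lemma energy_nonneg (F : G → ℂ) : 0 ≤ energy F :=
  Finset.sum_nonneg fun _ _ => sq_nonneg _

/-- two Cauchy-Schwarz steps -/
theorem bilinear_energy (F : G → ℂ) (A B : Finset G) (α β : G → ℂ)
    (hα : ∀ a ∈ A, ‖α a‖ ≤ 1) (hβ : ∀ b ∈ B, ‖β b‖ ≤ 1) :
    ‖∑ a ∈ A, ∑ b ∈ B, α a * β b * F (a + b)‖ ^ 4 ≤
      (A.card : ℝ) ^ 2 * (B.card : ℝ) ^ 3 * energy F := by
  classical
  -- first step
  have h1 : ‖∑ a ∈ A, ∑ b ∈ B, α a * β b * F (a + b)‖ ^ 2 ≤
      (A.card : ℝ) * ∑ a, ‖∑ b ∈ B, β b * F (a + b)‖ ^ 2 := by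
    calc ‖∑ a ∈ A, ∑ b ∈ B, α a * β b * F (a + b)‖ ^ 2
        ≤ (∑ a ∈ A, ‖∑ b ∈ B, β b * F (a + b)‖) ^ 2 := by
          gcongr
          refine (norm_sum_le _ _).trans (Finset.sum_le_sum fun a ha => ?_)
          rw [show ∑ b ∈ B, α a * β b * F (a + b) = α a * ∑ b ∈ B, β b * F (a + b) by
            rw [Finset.mul_sum]; exact Finset.sum_congr rfl fun b _ => by ring]
          rw [norm_mul]
          calc ‖α a‖ * ‖∑ b ∈ B, β b * F (a + b)‖
              ≤ 1 * ‖∑ b ∈ B, β b * F (a + b)‖ := by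
                gcongr; exact hα a ha
            _ = _ := one_mul _
      _ ≤ (A.card : ℝ) * ∑ a ∈ A, ‖∑ b ∈ B, β b * F (a + b)‖ ^ 2 := sq_sum_le_card_mul_sum_sq
      _ ≤ _ := by
          gcongr
          exact Finset.subset_univ _
  -- expansion of the square
  have h2 : ((∑ a, ‖∑ b ∈ B, β b * F (a + b)‖ ^ 2 : ℝ) : ℂ) =
      ∑ b ∈ B, ∑ b' ∈ B, β b * conj (β b') * corr F (b - b') := by
    push_cast
    have : ∀ a : G, ((‖∑ b ∈ B, β b * F (a + b)‖ : ℝ) : ℂ) ^ 2 =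
        ∑ b ∈ B, ∑ b' ∈ B, β b * conj (β b') * (F (a + b) * conj (F (a + b'))) := by
      intro a
      rw [← Complex.mul_conj', map_sum, Finset.sum_mul_sum]
      refine Finset.sum_congr rfl fun b _ => Finset.sum_congr rfl fun b' _ => ?_
      rw [map_mul]; ring
    simp_rw [this]
    rw [Finset.sum_comm]
    refine Finset.sum_congr rfl fun b _ => ?_
    rw [Finset.sum_comm]
    refine Finset.sum_congr rfl fun b' _ => ?_
    rw [← Finset.mul_sum]
    congr 1
    unfold corr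
    rw [← Equiv.sum_comp (Equiv.addRight b') (fun a => F (a + (b - b')) * conj (F a))]
    refine Finset.sum_congr rfl fun a _ => ?_
    simp only [Equiv.coe_addRight]
    rw [show a + b' + (b - b') = a + b by abel]
  have h3 : (∑ a, ‖∑ b ∈ B, β b * F (a + b)‖ ^ 2 : ℝ) ≤
      ∑ b ∈ B, ∑ b' ∈ B, ‖corr F (b - b')‖ := by
    have h0 : 0 ≤ (∑ a, ‖∑ b ∈ B, β b * F (a + b)‖ ^ 2 : ℝ) :=
      Finset.sum_nonneg fun _ _ => sq_nonneg _
    calc (∑ a, ‖∑ b ∈ B, β b * F (a + b)‖ ^ 2 : ℝ)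
        = ‖((∑ a, ‖∑ b ∈ B, β b * F (a + b)‖ ^ 2 : ℝ) : ℂ)‖ := by
          rw [Complex.norm_real, Real.norm_of_nonneg h0]
      _ = ‖∑ b ∈ B, ∑ b' ∈ B, β b * conj (β b') * corr F (b - b')‖ := by rw [h2]
      _ ≤ _ := by
          refine (norm_sum_le _ _).trans (Finset.sum_le_sum fun b hb => ?_)
          refine (norm_sum_le _ _).trans (Finset.sum_le_sum fun b' hb' => ?_)
          rw [norm_mul, norm_mul, RCLike.norm_conj]
          calc ‖β b‖ * ‖β b'‖ * ‖corr F (b - b')‖ ≤ 1 * 1 * ‖corr F (b - b')‖ := by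
                gcongr
                · exact hβ b hb
                · exact hβ b' hb'
            _ = _ := by ring
  have h4 : (∑ b ∈ B, ∑ b' ∈ B, ‖corr F (b - b')‖) ^ 2 ≤ (B.card : ℝ) ^ 3 * energy F := by
    calc (∑ b ∈ B, ∑ b' ∈ B, ‖corr F (b - b')‖) ^ 2
        = (∑ p ∈ B ×ˢ B, ‖corr F (p.1 - p.2)‖) ^ 2 := by rw [Finset.sum_product]
      _ ≤ ((B ×ˢ B).card : ℝ) * ∑ p ∈ B ×ˢ B, ‖corr F (p.1 - p.2)‖ ^ 2 :=
          sq_sum_le_card_mul_sum_sq
      _ = (B.card : ℝ) ^ 2 * ∑ b ∈ B, ∑ b' ∈ B, ‖corr F (b - b')‖ ^ 2 := by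
          rw [Finset.card_product, Finset.sum_product]; push_cast; ring
      _ ≤ (B.card : ℝ) ^ 2 * ∑ b ∈ B, energy F := by
          gcongr with b hb
          unfold energy
          calc ∑ b' ∈ B, ‖corr F (b - b')‖ ^ 2 ≤ ∑ b' : G, ‖corr F (b - b')‖ ^ 2 :=
                Finset.sum_le_sum_of_subset_of_nonneg (Finset.subset_univ _)
                  fun _ _ _ => sq_nonneg _
            _ = ∑ h, ‖corr F h‖ ^ 2 :=
                Equiv.sum_comp (Equiv.subLeft b) (fun h => ‖corr F h‖ ^ 2)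
      _ = (B.card : ℝ) ^ 3 * energy F := by
          rw [Finset.sum_const, nsmul_eq_mul]; ring
  have h0 : 0 ≤ (∑ a, ‖∑ b ∈ B, β b * F (a + b)‖ ^ 2 : ℝ) :=
    Finset.sum_nonneg fun _ _ => sq_nonneg _
  calc ‖∑ a ∈ A, ∑ b ∈ B, α a * β b * F (a + b)‖ ^ 4
      = (‖∑ a ∈ A, ∑ b ∈ B, α a * β b * F (a + b)‖ ^ 2) ^ 2 := by ring
    _ ≤ ((A.card : ℝ) * ∑ a, ‖∑ b ∈ B, β b * F (a + b)‖ ^ 2) ^ 2 := by gcongr
    _ = (A.card : ℝ) ^ 2 * (∑ a, ‖∑ b ∈ B, β b * F (a + b)‖ ^ 2) ^ 2 := by ring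
    _ ≤ (A.card : ℝ) ^ 2 * (∑ b ∈ B, ∑ b' ∈ B, ‖corr F (b - b')‖) ^ 2 := by gcongr
    _ ≤ (A.card : ℝ) ^ 2 * ((B.card : ℝ) ^ 3 * energy F) := by gcongr
    _ = _ := by ring

/-- the energy as a sum over additive quadruples: `E = ∑_{x, y, h} F(x+h) F̄(x) F̄(y+h) F(y)` -/
lemma energy_eq (F : G → ℂ) :
    (energy F : ℂ) = ∑ h, ∑ x, ∑ y, F (x + h) * conj (F x) * (conj (F (y + h)) * F y) := by
  unfold energy corr
  push_cast
  refine Finset.sum_congr rfl fun h _ => ?_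
  rw [← Complex.mul_conj', map_sum, Finset.sum_mul_sum]
  refine Finset.sum_congr rfl fun x _ => Finset.sum_congr rfl fun y _ => ?_
  simp only [map_mul, Complex.conj_conj]

/-- trivial bound -/
lemma energy_le_card (F : G → ℂ) (hF : ∀ x, ‖F x‖ ≤ 1) :
    energy F ≤ (Fintype.card G : ℝ) ^ 3 := by
  have hc : ∀ h, ‖corr F h‖ ≤ Fintype.card G := by
    intro h
    unfold corr
    refine (norm_sum_le _ _).trans ?_
    calc ∑ a, ‖F (a + h) * conj (F a)‖ ≤ ∑ a : G, (1 : ℝ) := by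
          refine Finset.sum_le_sum fun a _ => ?_
          rw [norm_mul, RCLike.norm_conj]
          exact mul_le_one₀ (hF _) (norm_nonneg _) (hF _)
      _ = Fintype.card G := by simp
  calc energy F ≤ ∑ h : G, (Fintype.card G : ℝ) ^ 2 := by
        unfold energy
        exact Finset.sum_le_sum fun h _ => by gcongr; exact hc h
    _ = _ := by rw [Finset.sum_const, nsmul_eq_mul, Finset.card_univ]; ring

end Group

section Prod
variable {G H : Type*} [AddCommGroup G] [Fintype G] [AddCommGroup H] [Fintype H]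

/-- the energy is multiplicative -/
lemma energy_prod (F : G → ℂ) (F' : H → ℂ) :
    energy (fun p : G × H => F p.1 * F' p.2) = energy F * energy F' := by
  have hc : ∀ h : G × H, corr (fun p : G × H => F p.1 * F' p.2) h = corr F h.1 * corr F' h.2 := by
    intro h
    unfold corr
    rw [Fintype.sum_prod_type, Finset.sum_mul_sum]
    refine Finset.sum_congr rfl fun a _ => Finset.sum_congr rfl fun b _ => ?_
    simp only [Prod.fst_add, Prod.snd_add, map_mul]
    ring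
  unfold energy
  simp_rw [hc]
  rw [Fintype.sum_prod_type, Finset.sum_mul_sum]
  refine Finset.sum_congr rfl fun a _ => Finset.sum_congr rfl fun b _ => ?_
  rw [norm_mul, mul_pow]

/-- the energy is invariant under isomorphisms -/
lemma energy_equiv (e : G ≃+ H) (F : H → ℂ) : energy (fun x => F (e x)) = energy F := by
  have hc : ∀ h : G, corr (fun x => F (e x)) h = corr F (e h) := by
    intro h
    unfold corr
    rw [← Equiv.sum_comp e.toEquiv (fun a => F (a + e h) * conj (F a))]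
    refine Finset.sum_congr rfl fun a _ => ?_
    simp only [AddEquiv.toEquiv_eq_coe, AddEquiv.coe_toEquiv, map_add]
  unfold energy
  simp_rw [hc]
  exact Equiv.sum_comp e.toEquiv (fun h => ‖corr F h‖ ^ 2)

/-- the energy is invariant under translations -/
lemma energy_translate (F : G → ℂ) (r : G) : energy (fun x => F (x + r)) = energy F := by
  have hc : ∀ h : G, corr (fun x => F (x + r)) h = corr F h := by
    intro h
    unfold corr
    rw [← Equiv.sum_comp (Equiv.addRight r) (fun a => F (a + h) * conj (F a))]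
    refine Finset.sum_congr rfl fun a _ => ?_
    simp only [Equiv.coe_addRight]
    rw [show a + h + r = a + r + h by abel]
  unfold energy
  simp_rw [hc]

end Prod

/-! ## The prime case -/

section Prime
variable {p : ℕ} [Fact p.Prime]

/-- the phase `e(A t⁻¹ / p)`, zero at the pole `t = 0` -/
def kl (A : ZMod p) (t : ZMod p) : ℂ :=
  if t = 0 then 0 else ZMod.stdAddChar (A * t⁻¹)

lemma norm_kl_le (A t : ZMod p) : ‖kl A t‖ ≤ 1 := by
  unfold kl
  split_ifs
  · simp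
  · rw [AddChar.norm_apply]

lemma conj_kl (A t : ZMod p) : conj (kl A t) = kl (-A) t := by
  unfold kl
  split_ifs
  · simp
  · rw [neg_mul, AddChar.map_neg_eq_conj]

/-- multiplication by a unit as an additive equivalence -/
def mulE (A : ZMod p) (hA : A ≠ 0) : ZMod p ≃+ ZMod p where
  toFun x := A * x
  invFun x := A⁻¹ * x
  left_inv x := by
    show A⁻¹ * (A * x) = x
    rw [← mul_assoc, inv_mul_cancel₀ hA, one_mul]
  right_inv x := by
    show A * (A⁻¹ * x) = x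
    rw [← mul_assoc, mul_inv_cancel₀ hA, one_mul]
  map_add' x y := mul_add _ _ _

/-- scaling invariance -/
lemma energy_kl_scale (A : ZMod p) (hA : A ≠ 0) :
    energy (kl (p := p) A) = energy (kl (p := p) 1) := by
  rw [← energy_equiv (mulE A hA) (kl A)]
  congr 1
  funext t
  unfold kl
  simp only [mulE, AddEquiv.coe_mk, Equiv.coe_fn_mk, mul_eq_zero, hA, false_or, one_mul, mul_inv]
  split_ifs
  · rfl
  · rw [← mul_assoc, mul_inv_cancel₀ hA, one_mul]

/-- the number of solutions -/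
lemma count_le (h : ZMod p) (hh : h ≠ 0) :
    (Finset.univ.filter fun q : ZMod p × ZMod p => q.1 ≠ 0 ∧ q.1 + h ≠ 0 ∧ q.2 ≠ 0 ∧ q.2 + h ≠ 0 ∧
      (q.1 + h)⁻¹ - q.1⁻¹ - (q.2 + h)⁻¹ + q.2⁻¹ = 0).card ≤ 2 * (p - 1) := by
  classical
  have hsub : (Finset.univ.filter fun q : ZMod p × ZMod p => q.1 ≠ 0 ∧ q.1 + h ≠ 0 ∧ q.2 ≠ 0 ∧
      q.2 + h ≠ 0 ∧ (q.1 + h)⁻¹ - q.1⁻¹ - (q.2 + h)⁻¹ + q.2⁻¹ = 0) ⊆
      ((Finset.univ.filter fun x : ZMod p => x ≠ 0).image fun x => (x, x)) ∪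
      ((Finset.univ.filter fun x : ZMod p => x ≠ 0).image fun x => (x, -x - h)) := by
    intro q hq
    simp only [Finset.mem_filter, Finset.mem_univ, true_and] at hq
    obtain ⟨h1, h2, h3, h4, h5⟩ := hq
    have h6 : (q.1 - q.2) * (q.1 + q.2 + h) = 0 := by
      field_simp at h5
      have h7 : h * ((q.1 - q.2) * (q.1 + q.2 + h)) = 0 := by
        linear_combination h5
      exact (mul_eq_zero.1 h7).resolve_left hh
    simp only [Finset.mem_union, Finset.mem_image, Finset.mem_filter, Finset.mem_univ, true_and]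
    rcases mul_eq_zero.1 h6 with h7 | h7
    · left
      exact ⟨q.1, h1, Prod.ext rfl (sub_eq_zero.1 h7)⟩
    · right
      refine ⟨q.1, h1, Prod.ext rfl ?_⟩
      show -q.1 - h = q.2
      linear_combination -h7
  have hcard : (Finset.univ.filter fun x : ZMod p => x ≠ 0).card = p - 1 := by
    rw [Finset.filter_ne', Finset.card_erase_of_mem (Finset.mem_univ _), Finset.card_univ,
      ZMod.card]
  calc _ ≤ _ := Finset.card_le_card hsub
    _ ≤ _ := Finset.card_union_le _ _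
    _ ≤ (p - 1) + (p - 1) := by
        gcongr
        · exact Finset.card_image_le.trans hcard.le
        · exact Finset.card_image_le.trans hcard.le
    _ = _ := by ring

lemma count_zero :
    (Finset.univ.filter fun q : ZMod p × ZMod p => q.1 ≠ 0 ∧ q.1 + 0 ≠ 0 ∧ q.2 ≠ 0 ∧ q.2 + 0 ≠ 0 ∧
      (q.1 + 0)⁻¹ - q.1⁻¹ - (q.2 + 0)⁻¹ + q.2⁻¹ = 0).card ≤ (p - 1) * (p - 1) := by
  classical
  have hsub : (Finset.univ.filter fun q : ZMod p × ZMod p => q.1 ≠ 0 ∧ q.1 + 0 ≠ 0 ∧ q.2 ≠ 0 ∧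
      q.2 + 0 ≠ 0 ∧ (q.1 + 0)⁻¹ - q.1⁻¹ - (q.2 + 0)⁻¹ + q.2⁻¹ = 0) ⊆
      (Finset.univ.filter fun x : ZMod p => x ≠ 0) ×ˢ
        (Finset.univ.filter fun x : ZMod p => x ≠ 0) := by
    intro q hq
    simp only [Finset.mem_filter, Finset.mem_univ, true_and] at hq
    simp only [Finset.mem_product, Finset.mem_filter, Finset.mem_univ, true_and]
    exact ⟨hq.1, hq.2.2.1⟩
  have hcard : (Finset.univ.filter fun x : ZMod p => x ≠ 0).card = p - 1 := by
    rw [Finset.filter_ne', Finset.card_erase_of_mem (Finset.mem_univ _), Finset.card_univ,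
      ZMod.card]
  calc _ ≤ _ := Finset.card_le_card hsub
    _ = _ := by rw [Finset.card_product, hcard]

/-- the sum of all energies is `p` times the number of solutions -/
lemma sum_energy_kl :
    ((∑ A : ZMod p, energy (kl (p := p) A) : ℝ) : ℂ) =
      ∑ h : ZMod p, (p : ℂ) * ((Finset.univ.filter fun q : ZMod p × ZMod p =>
        q.1 ≠ 0 ∧ q.1 + h ≠ 0 ∧ q.2 ≠ 0 ∧ q.2 + h ≠ 0 ∧
        (q.1 + h)⁻¹ - q.1⁻¹ - (q.2 + h)⁻¹ + q.2⁻¹ = 0).card : ℂ) := by
  classical
  push_cast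
  simp_rw [energy_eq]
  rw [Finset.sum_comm]
  refine Finset.sum_congr rfl fun h _ => ?_
  have key : ∀ q : ZMod p × ZMod p, ∑ A : ZMod p, kl A (q.1 + h) * conj (kl A q.1) *
      (conj (kl A (q.2 + h)) * kl A q.2) =
      if (q.1 ≠ 0 ∧ q.1 + h ≠ 0 ∧ q.2 ≠ 0 ∧ q.2 + h ≠ 0 ∧
        (q.1 + h)⁻¹ - q.1⁻¹ - (q.2 + h)⁻¹ + q.2⁻¹ = 0) then (p : ℂ) else 0 := by
    rintro ⟨x, y⟩
    dsimp only
    simp_rw [conj_kl]
    by_cases h1 : x = 0
    · simp [kl, h1]
    by_cases h2 : x + h = 0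
    · simp [kl, h2]
    by_cases h3 : y = 0
    · simp [kl, h3]
    by_cases h4 : y + h = 0
    · simp [kl, h4]
    have h5 : ∀ A : ZMod p, kl A (x + h) * kl (-A) x * (kl (-A) (y + h) * kl A y) =
        ZMod.stdAddChar (((x + h)⁻¹ - x⁻¹ - (y + h)⁻¹ + y⁻¹) * A) := by
      intro A
      simp only [kl, h1, h2, h3, h4, if_false]
      rw [← AddChar.map_add_eq_mul, ← AddChar.map_add_eq_mul, ← AddChar.map_add_eq_mul]
      congr 1
      ring
    simp_rw [h5]
    have h6 := AddChar.sum_mulShift ((x + h)⁻¹ - x⁻¹ - (y + h)⁻¹ + y⁻¹)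
      (ZMod.isPrimitive_stdAddChar p)
    rw [ZMod.card] at h6
    simp_rw [mul_comm (((x + h)⁻¹ - x⁻¹ - (y + h)⁻¹ + y⁻¹))]
    rw [h6]
    simp only [h1, h2, h3, h4, ne_eq, not_false_eq_true, true_and]
    split_ifs <;> simp
  calc ∑ A : ZMod p, ∑ x, ∑ y, kl A (x + h) * conj (kl A x) * (conj (kl A (y + h)) * kl A y)
      = ∑ A : ZMod p, ∑ q : ZMod p × ZMod p, kl A (q.1 + h) * conj (kl A q.1) *
          (conj (kl A (q.2 + h)) * kl A q.2) := by
        refine Finset.sum_congr rfl fun A _ => ?_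
        rw [Fintype.sum_prod_type]
    _ = ∑ q : ZMod p × ZMod p, ∑ A : ZMod p, kl A (q.1 + h) * conj (kl A q.1) *
          (conj (kl A (q.2 + h)) * kl A q.2) := Finset.sum_comm
    _ = _ := by
        simp_rw [key]
        rw [Finset.sum_ite, Finset.sum_const_zero, add_zero, Finset.sum_const, nsmul_eq_mul,
          mul_comm]

/-- **The fourth moment**: `E ≤ 3 p²` -/
theorem energy_kl_le (A : ZMod p) (hA : A ≠ 0) : energy (kl (p := p) A) ≤ 3 * (p : ℝ) ^ 2 := by
  classical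
  have hp : 2 ≤ p := (Fact.out : p.Prime).two_le
  rw [energy_kl_scale A hA]
  have h1 : (∑ A : ZMod p, energy (kl (p := p) A) : ℝ) =
      ∑ h : ZMod p, (p : ℝ) * ((Finset.univ.filter fun q : ZMod p × ZMod p =>
        q.1 ≠ 0 ∧ q.1 + h ≠ 0 ∧ q.2 ≠ 0 ∧ q.2 + h ≠ 0 ∧
        (q.1 + h)⁻¹ - q.1⁻¹ - (q.2 + h)⁻¹ + q.2⁻¹ = 0).card : ℝ) := by
    exact_mod_cast sum_energy_kl (p := p)
  have h2 : ((p : ℝ) - 1) * energy (kl (p := p) 1) ≤ ∑ A : ZMod p, energy (kl (p := p) A) := by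
    rw [← Finset.add_sum_erase _ _ (Finset.mem_univ (0 : ZMod p))]
    have : ∑ x ∈ Finset.univ.erase (0 : ZMod p), energy (kl (p := p) x) =
        ((p : ℝ) - 1) * energy (kl (p := p) 1) := by
      rw [Finset.sum_congr rfl (fun x hx => energy_kl_scale x (Finset.ne_of_mem_erase hx)),
        Finset.sum_const, Finset.card_erase_of_mem (Finset.mem_univ _), Finset.card_univ,
        ZMod.card, nsmul_eq_mul, Nat.cast_sub (by omega)]
      simp
    rw [this]
    have := energy_nonneg (kl (p := p) 0)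
    linarith
  have h3 : (∑ h : ZMod p, (p : ℝ) * ((Finset.univ.filter fun q : ZMod p × ZMod p =>
        q.1 ≠ 0 ∧ q.1 + h ≠ 0 ∧ q.2 ≠ 0 ∧ q.2 + h ≠ 0 ∧
        (q.1 + h)⁻¹ - q.1⁻¹ - (q.2 + h)⁻¹ + q.2⁻¹ = 0).card : ℝ)) ≤
      3 * p * ((p : ℝ) - 1) ^ 2 := by
    rw [← Finset.mul_sum, ← Finset.add_sum_erase _ _ (Finset.mem_univ (0 : ZMod p))]
    have e1 : (((Finset.univ.filter fun q : ZMod p × ZMod p =>
        q.1 ≠ 0 ∧ q.1 + 0 ≠ 0 ∧ q.2 ≠ 0 ∧ q.2 + 0 ≠ 0 ∧
        (q.1 + 0)⁻¹ - q.1⁻¹ - (q.2 + 0)⁻¹ + q.2⁻¹ = 0).card : ℕ) : ℝ) ≤ ((p : ℝ) - 1) ^ 2 := by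
      have := count_zero (p := p)
      calc _ ≤ (((p - 1) * (p - 1) : ℕ) : ℝ) := by exact_mod_cast this
        _ = _ := by push_cast [Nat.cast_sub (show 1 ≤ p by omega)]; ring
    have e2 : ∑ h ∈ Finset.univ.erase (0 : ZMod p),
        (((Finset.univ.filter fun q : ZMod p × ZMod p =>
        q.1 ≠ 0 ∧ q.1 + h ≠ 0 ∧ q.2 ≠ 0 ∧ q.2 + h ≠ 0 ∧
        (q.1 + h)⁻¹ - q.1⁻¹ - (q.2 + h)⁻¹ + q.2⁻¹ = 0).card : ℕ) : ℝ) ≤
        ((p : ℝ) - 1) * (2 * ((p : ℝ) - 1)) := by
      calc _ ≤ ∑ h ∈ Finset.univ.erase (0 : ZMod p), (2 * ((p : ℝ) - 1)) := by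
            refine Finset.sum_le_sum fun h hh => ?_
            have := count_le (p := p) h (Finset.ne_of_mem_erase hh)
            calc _ ≤ ((2 * (p - 1) : ℕ) : ℝ) := by exact_mod_cast this
              _ = _ := by push_cast [Nat.cast_sub (show 1 ≤ p by omega)]; ring
        _ = _ := by
            rw [Finset.sum_const, Finset.card_erase_of_mem (Finset.mem_univ _), Finset.card_univ,
              ZMod.card, nsmul_eq_mul, Nat.cast_sub (by omega)]
            simp
    have hp0 : (0 : ℝ) ≤ p := by positivity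
    calc _ ≤ (p : ℝ) * (((p : ℝ) - 1) ^ 2 + ((p : ℝ) - 1) * (2 * ((p : ℝ) - 1))) := by
          gcongr
      _ = _ := by ring
  have hp1 : (0 : ℝ) < (p : ℝ) - 1 := by
    have : (2 : ℝ) ≤ p := by exact_mod_cast hp
    linarith
  have h4 : ((p : ℝ) - 1) * energy (kl (p := p) 1) ≤ ((p : ℝ) - 1) * (3 * p * ((p : ℝ) - 1)) := by
    calc _ ≤ _ := h2
      _ = _ := h1
      _ ≤ _ := h3
      _ = _ := by ring
  have h5 := le_of_mul_le_mul_left h4 hp1
  have hp0 : (0 : ℝ) ≤ p := by positivity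
  nlinarith

end Prime

/-! ## Squarefree moduli -/

/-- the phase `e(A t⁻¹ / W)`, zero when `t` is not a unit mod `W` -/
def kap (W : ℕ) [NeZero W] (A : ℤ) (t : ZMod W) : ℂ :=
  open Classical in if IsUnit t then ZMod.stdAddChar ((A : ZMod W) * t⁻¹) else 0

lemma norm_kap_le (W : ℕ) [NeZero W] (A : ℤ) (t : ZMod W) : ‖kap W A t‖ ≤ 1 := by
  unfold kap
  split_ifs
  · rw [AddChar.norm_apply]
  · simp

lemma kap_prime (p : ℕ) [Fact p.Prime] (A : ℤ) : kap p A = kl (A : ZMod p) := by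
  funext t
  unfold kap kl
  by_cases h : t = 0
  · simp [h]
  · rw [if_pos (isUnit_iff_ne_zero.2 h), if_neg h]

/-- the standard character under the Chinese remainder theorem -/
lemma stdAddChar_crt (a b : ℕ) [NeZero a] [NeZero b] [NeZero (a * b)] (a' b' : ℤ)
    (h : ((a * b : ℕ) : ℤ) ∣ a * a' + b * b' - 1) (n : ℤ) :
    (ZMod.stdAddChar (n : ZMod (a * b)) : ℂ) =
      ZMod.stdAddChar ((n * b' : ℤ) : ZMod a) * ZMod.stdAddChar ((n * a' : ℤ) : ZMod b) := by
  have ha : (a : ℂ) ≠ 0 := Nat.cast_ne_zero.2 (NeZero.ne a)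
  have hb : (b : ℂ) ≠ 0 := Nat.cast_ne_zero.2 (NeZero.ne b)
  have h1 : (n : ZMod (a * b)) = ((n * (a * a' + b * b') : ℤ) : ZMod (a * b)) := by
    obtain ⟨c, hc⟩ := h
    have : (n * (a * a' + b * b') : ℤ) = n + ((a * b : ℕ) : ℤ) * (n * c) := by
      linear_combination n * hc
    rw [this]
    push_cast
    have h0 : ((a : ZMod (a * b)) * (b : ZMod (a * b))) = 0 := by
      rw [← Nat.cast_mul, ZMod.natCast_self]
    rw [h0]
    ring
  rw [h1, ZMod.stdAddChar_coe, ZMod.stdAddChar_coe, ZMod.stdAddChar_coe, ← Complex.exp_add]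
  congr 1
  push_cast
  field_simp
  ring

lemma inv_eq_of_mul_one {N : ℕ} (u v : ZMod N) (h : u * v = 1) : u⁻¹ = v := by
  have hu : IsUnit u := IsUnit.of_mul_eq_one v h
  have h1 : u⁻¹ * u = 1 := ZMod.inv_mul_of_unit u hu
  calc u⁻¹ = u⁻¹ * (u * v) := by rw [h, mul_one]
    _ = (u⁻¹ * u) * v := by ring
    _ = v := by rw [h1, one_mul]

/-- the phase under the Chinese remainder theorem -/
lemma kap_crt (a b : ℕ) [NeZero a] [NeZero b] [NeZero (a * b)] (hab : a.Coprime b) (a' b' : ℤ)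
    (h : ((a * b : ℕ) : ℤ) ∣ a * a' + b * b' - 1) (A : ℤ) (x : ZMod (a * b)) :
    kap (a * b) A x = kap a (A * b') (ZMod.chineseRemainder hab x).1 *
      kap b (A * a') (ZMod.chineseRemainder hab x).2 := by
  classical
  set e := ZMod.chineseRemainder hab with he
  have hu : IsUnit x ↔ IsUnit (e x).1 ∧ IsUnit (e x).2 := by
    rw [← Prod.isUnit_iff]
    exact (MulEquiv.isUnit_map e).symm
  by_cases h1 : IsUnit x
  · obtain ⟨h2, h3⟩ := hu.1 h1
    unfold kap
    rw [if_pos h1, if_pos h2, if_pos h3]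
    obtain ⟨n, hn⟩ := ZMod.intCast_surjective (x⁻¹)
    have hx : x * (n : ZMod (a * b)) = 1 := by
      rw [hn]; exact ZMod.mul_inv_of_unit x h1
    have hex : e x * ((n : ZMod a), (n : ZMod b)) = 1 := by
      have : e (x * (n : ZMod (a * b))) = 1 := by rw [hx, map_one]
      rw [map_mul, map_intCast] at this
      exact this
    have h4 : ((e x).1)⁻¹ = (n : ZMod a) := by
      apply inv_eq_of_mul_one
      exact congrArg Prod.fst hex
    have h5 : ((e x).2)⁻¹ = (n : ZMod b) := by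
      apply inv_eq_of_mul_one
      exact congrArg Prod.snd hex
    rw [h4, h5, ← hn]
    have h6 := stdAddChar_crt a b a' b' h (A * n)
    rw [← Int.cast_mul, h6, ← Int.cast_mul, ← Int.cast_mul,
      show A * n * b' = A * b' * n by ring, show A * n * a' = A * a' * n by ring]
  · have h2 : ¬ (IsUnit (e x).1 ∧ IsUnit (e x).2) := fun h => h1 (hu.2 h)
    unfold kap
    rw [if_neg h1]
    rcases not_and_or.1 h2 with h3 | h3
    · rw [if_neg h3, zero_mul]
    · rw [if_neg h3, mul_zero]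

/-- energy of a product phase -/
lemma energy_crt (a b : ℕ) [NeZero a] [NeZero b] [NeZero (a * b)] (hab : a.Coprime b)
    (F : ZMod a → ℂ) (F' : ZMod b → ℂ) :
    energy (fun x : ZMod (a * b) => F (ZMod.chineseRemainder hab x).1 *
      F' (ZMod.chineseRemainder hab x).2) = energy F * energy F' := by
  rw [← energy_prod]
  exact energy_equiv (ZMod.chineseRemainder hab).toAddEquiv (fun p : ZMod a × ZMod b => F p.1 * F' p.2)

/-- **The fourth moment for squarefree moduli** -/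
theorem energy_kap_le (W : ℕ) : ∀ [NeZero W], Squarefree W → ∀ A : ℤ,
    energy (kap W A) ≤ 3 ^ (W.primeFactors.card) * (W : ℝ) ^ 2 * (Int.gcd A W : ℝ) := by
  induction W using Nat.recOnPosPrimePosCoprime with
  | zero => intro h; exact absurd rfl (NeZero.ne 0)
  | one =>
    intro _ _ A
    have := energy_le_card (kap 1 A) (norm_kap_le 1 A)
    simpa using this
  | prime_pow p n hp hn =>
    intro _ hsq A
    have hn1 : n = 1 := by
      by_contra hne
      have h2 : 2 ≤ n := by omega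
      have := (Nat.squarefree_iff_prime_squarefree.1 hsq) p hp
      exact this ((dvd_of_eq (by ring)).trans (pow_dvd_pow p h2))
    subst hn1
    have : Fact p.Prime := ⟨hp⟩
    have key : ∀ (q : ℕ) [NeZero q], q = p → energy (kap q A) ≤
        3 * (q : ℝ) ^ 2 * (Int.gcd A q : ℝ) := by
      rintro q _ rfl
      rw [kap_prime]
      by_cases hA : (A : ZMod q) = 0
      · have hd : (q : ℤ) ∣ A := (ZMod.intCast_zmod_eq_zero_iff_dvd A q).1 hA
        have hg : Int.gcd A q = q := by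
          rw [Int.gcd_comm]
          show Nat.gcd (Int.natAbs (q : ℤ)) A.natAbs = q
          rw [Int.natAbs_natCast]
          exact Nat.gcd_eq_left (Int.natCast_dvd.1 hd)
        have h1 := energy_le_card (kl (p := q) (A : ZMod q)) (norm_kl_le _)
        rw [ZMod.card] at h1
        rw [hg]
        have : (0 : ℝ) ≤ (q : ℝ) ^ 3 := by positivity
        nlinarith
      · have h1 := energy_kl_le (A : ZMod q) hA
        have hg : (1 : ℝ) ≤ (Int.gcd A q : ℝ) := by
          have : 0 < Int.gcd A q := Int.gcd_pos_of_ne_zero_right _ (by exact_mod_cast hp.ne_zero)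
          exact_mod_cast this
        have h0 : (0 : ℝ) ≤ 3 * (q : ℝ) ^ 2 := by positivity
        nlinarith
    have h2 := key (p ^ 1) (pow_one p)
    have h3 : (p ^ 1).primeFactors.card = 1 := by
      rw [pow_one, hp.primeFactors, Finset.card_singleton]
    rw [h3, pow_one (3 : ℝ)]
    exact h2
  | coprime a b ha hb hab iha ihb =>
    intro _ hsq A
    have : NeZero a := ⟨by omega⟩
    have : NeZero b := ⟨by omega⟩
    have hsa : Squarefree a := hsq.squarefree_of_dvd (dvd_mul_right _ _)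
    have hsb : Squarefree b := hsq.squarefree_of_dvd (dvd_mul_left _ _)
    -- Bezout
    have hbz := Nat.gcd_eq_gcd_ab a b
    rw [hab.gcd_eq_one] at hbz
    set a' := Nat.gcdA a b with ha'
    set b' := Nat.gcdB a b with hb'
    have h1 : (a : ℤ) * a' + b * b' - 1 = 0 := by
      have : (1 : ℤ) = a * a' + b * b' := by exact_mod_cast hbz
      linarith
    have hd : ((a * b : ℕ) : ℤ) ∣ a * a' + b * b' - 1 := by rw [h1]; exact dvd_zero _
    have hc : kap (a * b) A = fun x => kap a (A * b') (ZMod.chineseRemainder hab x).1 *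
      kap b (A * a') (ZMod.chineseRemainder hab x).2 := by
      funext x
      exact kap_crt a b hab a' b' hd A x
    rw [hc, energy_crt a b hab (kap a (A * b')) (kap b (A * a'))]
    have e1 := iha hsa (A * b')
    have e2 := ihb hsb (A * a')
    have g1 : Int.gcd (A * b') a = Int.gcd A a := by
      have : IsCoprime b' (a : ℤ) := ⟨b, a', by linarith⟩
      rw [Int.gcd_comm, Int.gcd_comm A, mul_comm A]
      exact Int.gcd_mul_right_right_of_gcd_eq_one (Int.isCoprime_iff_gcd_eq_one.1 this.symm)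
    have g2 : Int.gcd (A * a') b = Int.gcd A b := by
      have : IsCoprime a' (b : ℤ) := ⟨a, b', by linarith⟩
      rw [Int.gcd_comm, Int.gcd_comm A, mul_comm A]
      exact Int.gcd_mul_right_right_of_gcd_eq_one (Int.isCoprime_iff_gcd_eq_one.1 this.symm)
    rw [g1] at e1
    rw [g2] at e2
    have g3 : (Int.gcd A ((a * b : ℕ) : ℤ)) = Int.gcd A a * Int.gcd A b := by
      have := Nat.Coprime.gcd_mul A.natAbs hab
      show Nat.gcd A.natAbs (Int.natAbs ((a * b : ℕ) : ℤ)) =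
        Nat.gcd A.natAbs (Int.natAbs (a : ℤ)) * Nat.gcd A.natAbs (Int.natAbs (b : ℤ))
      rw [Int.natAbs_natCast, Int.natAbs_natCast, Int.natAbs_natCast]
      exact this
    have hω : (a * b).primeFactors.card = a.primeFactors.card + b.primeFactors.card := by
      rw [Nat.Coprime.primeFactors_mul hab, Finset.card_union_of_disjoint
        (Nat.Coprime.disjoint_primeFactors hab)]
    rw [g3, hω]
    calc energy (kap a (A * b')) * energy (kap b (A * a'))
        ≤ (3 ^ (a.primeFactors.card) * (a : ℝ) ^ 2 * (Int.gcd A a : ℝ)) *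
          (3 ^ (b.primeFactors.card) * (b : ℝ) ^ 2 * (Int.gcd A b : ℝ)) := by
          exact mul_le_mul e1 e2 (energy_nonneg _) (by positivity)
      _ = _ := by push_cast; ring

/-! ## Bilinear sums over sets of integers -/

/-- **Bilinear sums of Kloosterman phases with two moduli and two poles.**
`S`, `T` are finite sets of integers, each injective modulo `W₁ W₂`. -/
theorem bilinear_kap (W₁ W₂ : ℕ) [NeZero W₁] [NeZero W₂] (h₁ : Squarefree W₁) (h₂ : Squarefree W₂)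
    (hW : W₁.Coprime W₂) (A₁ A₂ r₁ r₂ : ℤ) (S T : Finset ℤ)
    (hS : Set.InjOn (fun n : ℤ => (n : ZMod (W₁ * W₂))) S)
    (hT : Set.InjOn (fun n : ℤ => (n : ZMod (W₁ * W₂))) T)
    (α β : ℤ → ℂ) (hα : ∀ a ∈ S, ‖α a‖ ≤ 1) (hβ : ∀ b ∈ T, ‖β b‖ ≤ 1) :
    ‖∑ a ∈ S, ∑ b ∈ T, α a * β b * (kap W₁ A₁ ((a + b + r₁ : ℤ) : ZMod W₁) *
        kap W₂ A₂ ((a + b + r₂ : ℤ) : ZMod W₂))‖ ^ 4 ≤
      (S.card : ℝ) ^ 2 * (T.card : ℝ) ^ 3 *
        (3 ^ ((W₁ * W₂).primeFactors.card) * ((W₁ : ℝ) * W₂) ^ 2 *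
          ((Int.gcd A₁ W₁ : ℝ) * (Int.gcd A₂ W₂ : ℝ))) := by
  classical
  set F : ZMod (W₁ * W₂) → ℂ := fun x =>
    (fun y : ZMod W₁ => kap W₁ A₁ (y + (r₁ : ZMod W₁))) (ZMod.chineseRemainder hW x).1 *
    (fun y : ZMod W₂ => kap W₂ A₂ (y + (r₂ : ZMod W₂))) (ZMod.chineseRemainder hW x).2 with hF
  have hFe : energy F ≤ 3 ^ ((W₁ * W₂).primeFactors.card) * ((W₁ : ℝ) * W₂) ^ 2 *
      ((Int.gcd A₁ W₁ : ℝ) * (Int.gcd A₂ W₂ : ℝ)) := by
    have hEF : energy F = energy (kap W₁ A₁) * energy (kap W₂ A₂) := by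
      have := energy_crt W₁ W₂ hW (fun y : ZMod W₁ => kap W₁ A₁ (y + (r₁ : ZMod W₁)))
        (fun y : ZMod W₂ => kap W₂ A₂ (y + (r₂ : ZMod W₂)))
      rw [energy_translate, energy_translate] at this
      exact this
    rw [hEF]
    have hω : (W₁ * W₂).primeFactors.card = W₁.primeFactors.card + W₂.primeFactors.card := by
      rw [Nat.Coprime.primeFactors_mul hW, Finset.card_union_of_disjoint
        (Nat.Coprime.disjoint_primeFactors hW)]
    rw [hω]
    calc energy (kap W₁ A₁) * energy (kap W₂ A₂)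
        ≤ (3 ^ (W₁.primeFactors.card) * (W₁ : ℝ) ^ 2 * (Int.gcd A₁ W₁ : ℝ)) *
          (3 ^ (W₂.primeFactors.card) * (W₂ : ℝ) ^ 2 * (Int.gcd A₂ W₂ : ℝ)) :=
          mul_le_mul (energy_kap_le W₁ h₁ A₁) (energy_kap_le W₂ h₂ A₂) (energy_nonneg _)
            (by positivity)
      _ = _ := by ring
  -- transfer
  let c : ℤ → ZMod (W₁ * W₂) := fun n => (n : ZMod (W₁ * W₂))
  have hcS : Set.InjOn c S := hS
  have hcT : Set.InjOn c T := hT
  -- left inverses on S and T
  let iS : ZMod (W₁ * W₂) → ℤ := Function.invFunOn c S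
  let iT : ZMod (W₁ * W₂) → ℤ := Function.invFunOn c T
  have hiS : ∀ a ∈ S, iS (c a) = a := fun a ha => hcS.leftInvOn_invFunOn ha
  have hiT : ∀ b ∈ T, iT (c b) = b := fun b hb => hcT.leftInvOn_invFunOn hb
  have key := bilinear_energy F (S.image c) (T.image c) (fun x => α (iS x)) (fun x => β (iT x))
    (by
      intro x hx
      obtain ⟨a, ha, rfl⟩ := Finset.mem_image.1 hx
      rw [hiS a ha]; exact hα a ha)
    (by
      intro x hx
      obtain ⟨b, hb, rfl⟩ := Finset.mem_image.1 hx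
      rw [hiT b hb]; exact hβ b hb)
  rw [Finset.card_image_of_injOn hcS, Finset.card_image_of_injOn hcT] at key
  have hsum : ∑ a ∈ S.image c, ∑ b ∈ T.image c, α (iS a) * β (iT b) * F (a + b) =
      ∑ a ∈ S, ∑ b ∈ T, α a * β b * (kap W₁ A₁ ((a + b + r₁ : ℤ) : ZMod W₁) *
        kap W₂ A₂ ((a + b + r₂ : ℤ) : ZMod W₂)) := by
    rw [Finset.sum_image hcS]
    refine Finset.sum_congr rfl fun a ha => ?_
    rw [Finset.sum_image hcT]
    refine Finset.sum_congr rfl fun b hb => ?_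
    rw [hiS a ha, hiT b hb]
    congr 1
    have e1 : ZMod.chineseRemainder hW (c a + c b) = (((a + b : ℤ) : ZMod W₁), ((a + b : ℤ) : ZMod W₂)) := by
      have : c a + c b = ((a + b : ℤ) : ZMod (W₁ * W₂)) := by
        simp [c]
      rw [this, map_intCast]
      rfl
    simp only [hF, e1]
    push_cast
    rfl
  rw [hsum] at key
  refine key.trans ?_
  gcongr

/-- the same over intervals of length at most `W₁ W₂` -/
theorem bilinear_kap_range (W₁ W₂ : ℕ) [NeZero W₁] [NeZero W₂] (h₁ : Squarefree W₁)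
    (h₂ : Squarefree W₂) (hW : W₁.Coprime W₂) (A₁ A₂ r₁ r₂ : ℤ) (M N : ℕ)
    (hM : M ≤ W₁ * W₂) (hN : N ≤ W₁ * W₂)
    (α β : ℕ → ℂ) (hα : ∀ a < M, ‖α a‖ ≤ 1) (hβ : ∀ b < N, ‖β b‖ ≤ 1) :
    ‖∑ a ∈ Finset.range M, ∑ b ∈ Finset.range N,
        α a * β b * (kap W₁ A₁ ((a + b + r₁ : ℤ) : ZMod W₁) *
        kap W₂ A₂ ((a + b + r₂ : ℤ) : ZMod W₂))‖ ^ 4 ≤
      (M : ℝ) ^ 2 * (N : ℝ) ^ 3 *
        (3 ^ ((W₁ * W₂).primeFactors.card) * ((W₁ : ℝ) * W₂) ^ 2 *
          ((Int.gcd A₁ W₁ : ℝ) * (Int.gcd A₂ W₂ : ℝ))) := by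
  classical
  have hinj : ∀ K : ℕ, K ≤ W₁ * W₂ → Set.InjOn (fun n : ℤ => (n : ZMod (W₁ * W₂)))
      ((Finset.range K).image (fun n : ℕ => (n : ℤ)) : Finset ℤ) := by
    intro K hK x hx y hy hxy
    simp only [Finset.coe_image, Set.mem_image, Finset.mem_coe, Finset.mem_range] at hx hy
    obtain ⟨a, ha, rfl⟩ := hx
    obtain ⟨b, hb, rfl⟩ := hy
    simp only [Int.cast_natCast] at hxy
    have := (ZMod.natCast_eq_natCast_iff' a b _).1 hxy
    rw [Nat.mod_eq_of_lt (by omega), Nat.mod_eq_of_lt (by omega)] at this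
    rw [this]
  have hc : Function.Injective (fun n : ℕ => (n : ℤ)) := Nat.cast_injective
  have key := bilinear_kap W₁ W₂ h₁ h₂ hW A₁ A₂ r₁ r₂
    ((Finset.range M).image (fun n : ℕ => (n : ℤ))) ((Finset.range N).image (fun n : ℕ => (n : ℤ)))
    (hinj M hM) (hinj N hN) (fun n => α n.toNat) (fun n => β n.toNat)
    (by
      intro x hx
      obtain ⟨a, ha, rfl⟩ := Finset.mem_image.1 hx
      simpa using hα a (Finset.mem_range.1 ha))
    (by
      intro x hx
      obtain ⟨b, hb, rfl⟩ := Finset.mem_image.1 hx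
      simpa using hβ b (Finset.mem_range.1 hb))
  rw [Finset.card_image_of_injective _ hc, Finset.card_image_of_injective _ hc,
    Finset.card_range, Finset.card_range, Finset.sum_image (fun _ _ _ _ h => hc h)] at key
  refine le_trans (le_of_eq ?_) key
  congr 2
  refine Finset.sum_congr rfl fun a _ => ?_
  rw [Finset.sum_image (fun _ _ _ _ h => hc h)]
  refine Finset.sum_congr rfl fun b _ => ?_
  simp

end

end Pool.Agent.ZH
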